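import Pool.Agent.Lib.MP_c7fb7b_an_p.Z

/-! For every `1 < p < ∞` the weak p-Banach-Saks property is not inherited through weakly
sequentially continuous coarse Lipschitz embeddings, not even if the embedding is Lipschitz. -/

open Pool.Agent.WB

/-- For every real `p > 1` there are real Banach spaces `X`, `Y` such that `Y` has the weak
`p`-Banach-Saks property, `X` does not have it, and there is a weakly sequentially continuous coarse
Lipschitz embedding `f : X → Y`, which in addition is a Lipschitz map (with constant `80`). -/
theorem Pool.Agent.Results.MP_c7fb7b_an.WeakBanachSaks.result (p : ℝ) (hp : 1 < p) :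
    ∃ (X Y : Type) (_ : NormedAddCommGroup X) (_ : NormedSpace ℝ X) (_ : CompleteSpace X)
      (_ : NormedAddCommGroup Y) (_ : NormedSpace ℝ Y) (_ : CompleteSpace Y),
      WeakBS p Y ∧ ¬ WeakBS p X ∧
        ∃ f : X → Y, CoarseLip f ∧ WeakSeqCont f ∧ ∀ x y, ‖f x - f y‖ ≤ 80 * ‖x - y‖ :=
  Pool.Agent.WBp.main hp
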